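import Pool.Agent.Q107.SphG.Main

/-! # The automorphism group of the `d`-sphere graph is not the homeomorphism group for `d ≥ 2`

`IsDisc d A`: `A = 𝔻^d ∩ H` for an affine hyperplane `H = {x | ⟪n, x⟫ = c}`, `n ≠ 0`, of `ℝ^(d+1)`
which meets the open unit ball; `sphereGraph d` is the intersection graph `𝒞^d` of these sets.

The theorem: let `d ≥ 2`.
* The groups `Aut(𝕊^d)` of homeomorphisms of the sphere and `Aut(𝒞^d)` of graph automorphisms are
  not isomorphic; there is not even an injective homomorphism `Aut(𝕊^d) → Aut(𝒞^d)`.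
* Every automorphism `φ` of `𝒞^d` is induced by a homeomorphism `F` of the sphere (the disc with
  boundary `S` goes to the disc with boundary `F(S)`), and `F` is a Möbius transformation: there is
  a linear map `L` of `ℝ^(d+1) × ℝ` which maps the ray of `(p, 1)` to the ray of `(F p, 1)` for all
  points `p` of the sphere.
-/

namespace Pool.Agent.Results.MP_d78ec8_co.MoebiusGroup

open Metric Module

/-- `A` is the intersection of the closed unit ball of `ℝ^(d+1)` with an affine hyperplane which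
meets the open unit ball. -/
def IsDisc (d : ℕ) (A : Set (EuclideanSpace ℝ (Fin (d + 1)))) : Prop :=
  ∃ (n : EuclideanSpace ℝ (Fin (d + 1))) (c : ℝ), n ≠ 0 ∧ (∃ x, ‖x‖ < 1 ∧ inner ℝ n x = c) ∧
    A = {x | ‖x‖ ≤ 1 ∧ inner ℝ n x = c}

/-- The `d`-sphere graph: vertices are the discs, two distinct discs are adjacent if they meet. -/
def sphereGraph (d : ℕ) : SimpleGraph {A // IsDisc d A} where
  Adj A B := A ≠ B ∧ (A.1 ∩ B.1).Nonempty
  symm := ⟨fun A B h => ⟨h.1.symm, by rw [Set.inter_comm]; exact h.2⟩⟩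
  loopless := ⟨fun A h => h.1 rfl⟩

theorem isDisc_iff (d : ℕ) (A : Set (EuclideanSpace ℝ (Fin (d + 1)))) :
    IsDisc d A ↔ Pool.Agent.Q107.SphG.IsDisc A := by
  constructor
  · rintro ⟨n, c, hn, ⟨x, hx, hxc⟩, rfl⟩
    refine ⟨n, c, ?_, rfl⟩
    have hn' : 0 < ‖n‖ := norm_pos_iff.mpr hn
    rw [← hxc]
    refine (abs_real_inner_le_norm n x).trans_lt ?_
    nlinarith
  · rintro ⟨n, c, hnc, rfl⟩
    refine ⟨n, c, ?_, Pool.Agent.Q107.SphG.exists_int hnc, rfl⟩
    rintro rfl
    rw [norm_zero] at hnc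
    linarith [abs_nonneg c]

/-- the two types of discs -/
def discEquiv (d : ℕ) : {A // IsDisc d A} ≃
    Pool.Agent.Q107.SphG.Dsc (EuclideanSpace ℝ (Fin (d + 1))) :=
  Equiv.subtypeEquivRight (isDisc_iff d)

/-- the permutation of discs given by a graph automorphism -/
def perm (d : ℕ) : (sphereGraph d ≃g sphereGraph d) →*
    Equiv.Perm (Pool.Agent.Q107.SphG.Dsc (EuclideanSpace ℝ (Fin (d + 1)))) where
  toFun φ := (discEquiv d).symm.trans (φ.toEquiv.trans (discEquiv d))
  map_one' := by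
    ext X
    simp
  map_mul' φ ψ := by
    apply Equiv.ext
    intro X
    simp [Equiv.Perm.mul_apply]

theorem perm_apply (d : ℕ) (φ : sphereGraph d ≃g sphereGraph d)
    (X : Pool.Agent.Q107.SphG.Dsc (EuclideanSpace ℝ (Fin (d + 1)))) :
    perm d φ X = discEquiv d (φ ((discEquiv d).symm X)) := rfl

theorem perm_injective (d : ℕ) : Function.Injective (perm d) := by
  intro φ ψ h
  apply RelIso.ext
  intro A
  have h1 := congrArg (fun f => f (discEquiv d A)) h
  simp only [perm_apply, Equiv.symm_apply_apply] at h1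
  exact (discEquiv d).injective h1

theorem meets_perm (d : ℕ) (φ : sphereGraph d ≃g sphereGraph d)
    (A B : Pool.Agent.Q107.SphG.Dsc (EuclideanSpace ℝ (Fin (d + 1)))) :
    Pool.Agent.Q107.SphG.meets (perm d φ A) (perm d φ B) ↔ Pool.Agent.Q107.SphG.meets A B := by
  have hself : ∀ X : Pool.Agent.Q107.SphG.Dsc (EuclideanSpace ℝ (Fin (d + 1))),
      Pool.Agent.Q107.SphG.meets X X := by
    intro X
    obtain ⟨n, c, hnc, hX⟩ := X.2
    obtain ⟨x, hx, hxn⟩ := Pool.Agent.Q107.SphG.exists_int hnc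
    refine ⟨x, ?_, ?_⟩ <;> · rw [hX]; exact ⟨hx.le, hxn⟩
  by_cases hAB : A = B
  · subst hAB
    exact ⟨fun _ => hself _, fun _ => hself _⟩
  · have h1 := φ.map_rel_iff (a := (discEquiv d).symm A) (b := (discEquiv d).symm B)
    have hne : (discEquiv d).symm A ≠ (discEquiv d).symm B :=
      fun h => hAB ((discEquiv d).symm.injective h)
    have hne' : φ ((discEquiv d).symm A) ≠ φ ((discEquiv d).symm B) :=
      fun h => hne (φ.injective h)
    constructor
    · intro h
      exact (h1.mp ⟨hne', h⟩).2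
    · intro h
      exact (h1.mpr ⟨hne, h⟩).2

/-- the sphere `𝕊^d` -/
abbrev Sph (d : ℕ) : Type := sphere (0 : EuclideanSpace ℝ (Fin (d + 1))) 1

/-- `Aut(𝕊^d)`: the group of homeomorphisms of the sphere. -/
abbrev AutSphere (d : ℕ) : Type := Sph d ≃ₜ Sph d

/-- `Aut(𝒞^d)`: the automorphism group of the sphere graph. -/
abbrev AutGraph (d : ℕ) : Type := sphereGraph d ≃g sphereGraph d

/-- The homeomorphism `F` of the sphere induces the automorphism `φ` of the sphere graph. -/
def Induces {d : ℕ} (F : AutSphere d) (φ : AutGraph d) : Prop :=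
  ∀ (p : Sph d) (A : {A // IsDisc d A}),
    (p : EuclideanSpace ℝ (Fin (d + 1))) ∈ A.1 ↔ (F p : EuclideanSpace ℝ (Fin (d + 1))) ∈ (φ A).1

/-- `F` is a Möbius transformation: it is the action of a linear map of `ℝ^(d+1) × ℝ` on the rays of
the light cone. -/
def IsMoebius {d : ℕ} (F : AutSphere d) : Prop :=
  ∃ L : EuclideanSpace ℝ (Fin (d + 1)) × ℝ →ₗ[ℝ] EuclideanSpace ℝ (Fin (d + 1)) × ℝ,
    ∀ p : Sph d, ∃ μ : ℝ, 0 < μ ∧ L (p, 1) = μ • ((F p : EuclideanSpace ℝ (Fin (d + 1))), (1 : ℝ))

theorem result (d : ℕ) (hd : 2 ≤ d) :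
    IsEmpty (AutSphere d ≃* AutGraph d) ∧
    (∀ f : AutSphere d →* AutGraph d, ¬ Function.Injective f) ∧
    ∀ φ : AutGraph d, ∃ F : AutSphere d, IsMoebius F ∧ Induces F φ := by
  have h3 : 3 ≤ finrank ℝ (EuclideanSpace ℝ (Fin (d + 1))) := by
    rw [finrank_euclideanSpace, Fintype.card_fin]; omega
  have hinj : ∀ f : (sphere (0 : EuclideanSpace ℝ (Fin (d + 1))) 1 ≃ₜ
      sphere (0 : EuclideanSpace ℝ (Fin (d + 1))) 1) →* (sphereGraph d ≃g sphereGraph d),
      ¬ Function.Injective f := by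
    intro f hf
    obtain ⟨ρ, hρ⟩ := Pool.Agent.Q107.SphG.exists_lin h3 (perm d) (perm_injective d)
      (meets_perm d)
    -- homeomorphisms of the sphere
    let e : OnePoint (EuclideanSpace ℝ (Fin d)) ≃ₜ
        sphere (0 : EuclideanSpace ℝ (Fin (d + 1))) 1 :=
      onePointEquivSphereOfFinrankEq (by simp)
    let ext : (EuclideanSpace ℝ (Fin d) ≃ₜ EuclideanSpace ℝ (Fin d)) →
        (sphere (0 : EuclideanSpace ℝ (Fin (d + 1))) 1 ≃ₜ
          sphere (0 : EuclideanSpace ℝ (Fin (d + 1))) 1) :=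
      fun h => (e.symm.trans h.onePointCongr).trans e
    have hext : ∀ g h : EuclideanSpace ℝ (Fin d) ≃ₜ EuclideanSpace ℝ (Fin d),
        ext (g * h) = ext g * ext h := by
      intro g h
      ext1 x
      show e ((g * h).onePointCongr (e.symm x)) =
        e (g.onePointCongr (e.symm (e (h.onePointCongr (e.symm x)))))
      rw [Homeomorph.symm_apply_apply]
      congr 1
      induction (e.symm x) using OnePoint.rec with
      | infty => rfl
      | coe y => rfl
    have hextinj : Function.Injective ext := by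
      intro g h hgh
      ext1 y
      have h1 := congrArg (fun k => e.symm (k (e (y : OnePoint (EuclideanSpace ℝ (Fin d)))))) hgh
      have h2 : ∀ k : EuclideanSpace ℝ (Fin d) ≃ₜ EuclideanSpace ℝ (Fin d),
          e.symm (ext k (e (y : OnePoint (EuclideanSpace ℝ (Fin d))))) =
            ((k y : EuclideanSpace ℝ (Fin d)) : OnePoint (EuclideanSpace ℝ (Fin d))) := by
        intro k
        show e.symm (e (k.onePointCongr (e.symm (e _)))) = _
        rw [Homeomorph.symm_apply_apply, Homeomorph.symm_apply_apply]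
        rfl
      simp only [h2] at h1
      exact OnePoint.coe_injective h1
    have : Nontrivial (EuclideanSpace ℝ (Fin d)) := by
      have : Nonempty (Fin d) := ⟨⟨0, by omega⟩⟩
      infer_instance
    obtain ⟨a, b, hne, hc⟩ := Pool.Agent.Q107.SphG.exists_family
      (X := EuclideanSpace ℝ (Fin d))
      (finrank ℝ (Module.End ℝ (EuclideanSpace ℝ (Fin (d + 1)) × ℝ)) + 1)
    have hb := Pool.Agent.Q107.SphG.lin_bound ρ hρ (fun i => f (ext (a i)))
      (fun i => f (ext (b i))) (by
        intro i h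
        rw [← map_mul, ← map_mul, ← hext, ← hext] at h
        exact hne i (hextinj (hf h))) (by
        intro i j hij
        rw [← map_mul, ← map_mul, ← hext, ← hext, hc i j hij])
    omega
  refine ⟨⟨fun f => hinj f.toMonoidHom f.injective⟩, hinj, fun φ => ?_⟩
  obtain ⟨F, L, h1, h2⟩ := Pool.Agent.Q107.SphG.exists_moebius h3 (perm d φ) (meets_perm d φ)
  refine ⟨F, ⟨L, h1⟩, fun p A => ?_⟩
  have h4 := h2 p (discEquiv d A)
  rw [perm_apply, Equiv.symm_apply_apply] at h4
  exact h4

end Pool.Agent.Results.MP_d78ec8_co.MoebiusGroup
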